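import Pool.Agent.Lib.MP_49f1ce_an.Roof

/-!
A topologically mixing shift space with exactly two periodic points and a Hoelder roof function
whose suspension flow is not topologically mixing, the roof being cohomologous to no constant and
to no locally constant function.
-/

namespace Pool.Agent.Results.MP_49f1ce_an.Counterexample

open Pool.Agent.Lib.MP_49f1ce_an

theorem result :
    ∃ (X : ShiftSpace Bool) (r : X.carrier → ℝ),
      X.IsTransitive ∧ X.IsMixing ∧
      (Function.periodicPts X.shift).Finite ∧ (Function.periodicPts X.shift).ncard = 2 ∧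
      Continuous r ∧ (∀ x, 0 < r x) ∧
      (∀ (N : ℕ) (x y : X.carrier), (∀ i : ℤ, |i| ≤ N → x.1 i = y.1 i) →
        |r x - r y| ≤ (1 / 2) ^ N) ∧
      ¬ IsMixingFlow X r ∧
      (∀ c : ℝ, ¬ Cohomologous X r fun _ => c) ∧
      ∀ g : X.carrier → ℝ, DependsOnWindow X g → ¬ Cohomologous X r g := by
  refine ⟨XS, roof, XS_transitive, XS_mixing, ?_, ?_,
    continuous_R.comp continuous_subtype_val, fun x => R_pos _, fun N x y h => R_close h,
    not_mixing, fun c => not_cohomologous _ ⟨0, fun _ _ _ => rfl⟩, not_cohomologous⟩
  · rw [periodicPts_XS]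
    exact Set.toFinite _
  · rw [periodicPts_XS]
    refine Set.ncard_pair fun h => ?_
    have := congrFun (congrArg Subtype.val h) 0
    simp at this

end Pool.Agent.Results.MP_49f1ce_an.Counterexample
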